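import Mathlib
import Pool.Agent.Helper20.FF.Defs

/-!
# The case `|A + H| = |A| + |H|` for a proper non-trivial subgroup `H`
-/

set_option autoImplicit false

open scoped Pointwise

namespace Pool.Agent.Helper85.FF

open Pool.Agent.Helper82.Kneser Pool.Agent.Helper20.Span Pool.Agent.Helper20.FF

section general

variable {G : Type*} [AddCommGroup G] [DecidableEq G]

/-- two classes of a representation of a missing element have small slices -/
lemma rep_slices {A K : Finset G} (hK : IsSub K) {h : ℕ} {x : G} (hx : x ∉ ns A h)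
    {b : Fin h → G} (hb : ∀ i, b i ∈ A) (hbx : x - ∑ i, b i ∈ K) {i j : Fin h} (hij : i ≠ j) :
    (slice A K (b i)).card + (slice A K (b j)).card ≤ K.card := by
  by_contra hcon
  push Not at hcon
  set κ := x - ∑ i, b i with hκ
  have h1 : ∃ u ∈ slice A K (b i), κ - u ∈ slice A K (b j) := by
    by_contra h2
    push Not at h2
    have h3 : Disjoint (slice A K (b i)) ((slice A K (b j)).image (fun v => κ - v)) := by
      rw [Finset.disjoint_left]
      intro u hu hu'
      rw [Finset.mem_image] at hu'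
      obtain ⟨v, hv, rfl⟩ := hu'
      apply h2 _ hu
      simpa using hv
    have h4 : slice A K (b i) ∪ (slice A K (b j)).image (fun v => κ - v) ⊆ K := by
      apply Finset.union_subset (Finset.filter_subset _ _)
      intro u hu
      rw [Finset.mem_image] at hu
      obtain ⟨v, hv, rfl⟩ := hu
      exact hK.sub hbx (Finset.mem_filter.1 hv).1
    have h5 := Finset.card_le_card h4
    rw [Finset.card_union_of_disjoint h3,
      Finset.card_image_of_injective _ (sub_right_injective)] at h5
    omega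
  obtain ⟨u, hu, hv⟩ := h1
  apply hx
  rw [mem_ns_iff]
  refine ⟨fun l => b l + (if l = i then u else 0) + (if l = j then κ - u else 0), ?_, ?_⟩
  · intro l
    show b l + (if l = i then u else 0) + (if l = j then κ - u else 0) ∈ A
    by_cases hl : l = i
    · subst hl
      rw [if_pos rfl, if_neg hij, add_zero]
      exact (Finset.mem_filter.1 hu).2
    · by_cases hl' : l = j
      · subst hl'
        rw [if_neg hl, if_pos rfl, add_zero]
        exact (Finset.mem_filter.1 hv).2
      · rw [if_neg hl, if_neg hl', add_zero, add_zero]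
        exact hb l
  · rw [Finset.sum_add_distrib, Finset.sum_add_distrib, Finset.sum_ite_eq' Finset.univ i,
      Finset.sum_ite_eq' Finset.univ j]
    simp only [Finset.mem_univ, if_true]
    rw [hκ]; abel

/-- three different cosets: holes -/
lemma holes_three {A K : Finset G} (hK : IsSub K) {a b c : G} (ha : a ∈ A) (hb : b ∈ A)
    (hc : c ∈ A) (hab : a - b ∉ K) (hac : a - c ∉ K) (hbc : b - c ∉ K) :
    A.card + 3 * K.card ≤
      (A + K).card + (slice A K a).card + (slice A K b).card + (slice A K c).card := by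
  classical
  have h1 : A ⊆ A + K := subset_add_sub hK A
  set H : G → Finset G := fun c => (K.filter (fun u => c + u ∉ A)).image (fun u => c + u) with hH
  have hHc : ∀ c, (H c).card + (slice A K c).card = K.card := by
    intro c
    rw [hH]
    simp only
    rw [Finset.card_image_of_injective _ (add_right_injective c)]
    unfold slice
    rw [add_comm]
    exact Finset.card_filter_add_card_filter_not (s := K) (fun u => c + u ∈ A)
  have hHs : ∀ c ∈ A, H c ⊆ (A + K) \ A := by
    intro c hc y hy
    rw [hH, Finset.mem_image] at hy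
    obtain ⟨u, hu, rfl⟩ := hy
    rw [Finset.mem_filter] at hu
    rw [Finset.mem_sdiff]
    exact ⟨Finset.add_mem_add hc hu.1, hu.2⟩
  have hd : ∀ a b : G, a - b ∉ K → Disjoint (H a) (H b) := by
    intro a b hab
    rw [Finset.disjoint_left]
    intro y hy hy'
    rw [hH, Finset.mem_image] at hy hy'
    obtain ⟨u, hu, rfl⟩ := hy
    obtain ⟨v, hv, hvu⟩ := hy'
    rw [Finset.mem_filter] at hu hv
    apply hab
    have := hK.sub hv.1 hu.1
    have h2 : v - u = a - b := by
      have : b + v = a + u := hvu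
      have h3 : v = a + u - b := by rw [← this]; abel
      rw [h3]; abel
    rwa [h2] at this
  have hd2 : Disjoint (H a ∪ H b) (H c) :=
    Finset.disjoint_union_left.2 ⟨hd a c hac, hd b c hbc⟩
  have h2 := Finset.card_le_card
    (Finset.union_subset (Finset.union_subset (hHs a ha) (hHs b hb)) (hHs c hc))
  rw [Finset.card_union_of_disjoint hd2, Finset.card_union_of_disjoint (hd a b hab),
    Finset.card_sdiff_of_subset h1] at h2
  have h3 := hHc a
  have h4 := hHc b
  have h6 := hHc c
  have h5 := Finset.card_le_card h1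
  omega

/-- a full slice -/
lemma slice_full {A K : Finset G} {b y : G} (h : K.card ≤ (slice A K b).card)
    (hy : y - b ∈ K) : y ∈ A := by
  have h1 : slice A K b = K := Finset.eq_of_subset_of_card_le (Finset.filter_subset _ _) h
  rw [← h1] at hy
  have := (Finset.mem_filter.1 hy).2
  rwa [show b + (y - b) = y by abel] at this

lemma slice_pos {A K : Finset G} (hK : IsSub K) {b : G} (hb : b ∈ A) :
    1 ≤ (slice A K b).card := by
  apply Finset.card_pos.2
  refine ⟨0, ?_⟩
  unfold slice
  rw [Finset.mem_filter, add_zero]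
  exact ⟨hK.zero, hb⟩

/-- a finite set closed under addition, with zero, is a subgroup -/
lemma isSub_of_add {L : Finset G} (h0 : (0 : G) ∈ L) (hadd : ∀ x ∈ L, ∀ y ∈ L, x + y ∈ L) :
    IsSub L := by
  refine ⟨h0, fun {g h} hg hh => hadd g hg h hh, fun {g} hg => ?_⟩
  have himg : L.image (fun y => g + y) = L := by
    apply Finset.eq_of_subset_of_card_le
    · intro y hy
      obtain ⟨z, hz, rfl⟩ := Finset.mem_image.1 hy
      exact hadd g hg z hz
    · rw [Finset.card_image_of_injective _ (add_right_injective g)]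
  have h1 := h0
  rw [← himg] at h1
  obtain ⟨z, hz, hz0⟩ := Finset.mem_image.1 h1
  have : -g = z := by
    rw [neg_eq_iff_add_eq_zero]; exact hz0
  rw [this]; exact hz

lemma ns_subset_ns_of_zero {L : Finset G} (h0 : (0 : G) ∈ L) {i j : ℕ} (hij : i ≤ j) :
    ns L i ⊆ ns L j := by
  obtain ⟨k, rfl⟩ := Nat.exists_eq_add_of_le hij
  rw [ns_add]
  intro x hx
  have h1 : (0 : G) ∈ ns L k := by
    rw [mem_ns_iff]
    exact ⟨fun _ => 0, fun _ => h0, by simp⟩
  exact Finset.mem_add.2 ⟨x, hx, 0, h1, by simp⟩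

/-- **The slices in the tie case.** `a₁`, `a₂` are in different classes, `a₁ + (h-1) a₂` is in the
class of the missing element `x`, all classes other than those of `a₁`, `a₂` are full. -/
lemma slices_tie {A K : Finset G} (hK : IsSub K) {m : ℕ} (hm : 2 ≤ m) {x a₁ a₂ : G}
    (hx : x ∉ ns A (m + 1)) (hper : (stab (ns A (m + 1))).card ≤ 1) (ha₁ : a₁ ∈ A) (ha₂ : a₂ ∈ A)
    (hxa : x - a₁ - m • a₂ ∈ K)
    (hsum : K.card ≤ (slice A K a₁).card + (slice A K a₂).card)
    (hfull : ∀ a ∈ A, a - a₁ ∉ K → a - a₂ ∉ K → K.card ≤ (slice A K a).card) :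
    (∀ y : G, y - a₂ ∈ K → (y ∈ A ↔ y = a₂)) ∧
      ∃ u : G, u - a₁ ∈ K ∧ ∀ y : G, y - a₁ ∈ K → (y ∈ A ↔ y ≠ u) := by
  classical
  set A₁ := slice A K a₁ with hA₁
  set A₂ := slice A K a₂ with hA₂
  set y₀ := x - a₁ - m • a₂ with hy₀
  have hm₁ : ∀ u, u ∈ A₁ ↔ u ∈ K ∧ a₁ + u ∈ A := by
    intro u; rw [hA₁]; unfold slice; rw [Finset.mem_filter]
  have hm₂ : ∀ u, u ∈ A₂ ↔ u ∈ K ∧ a₂ + u ∈ A := by
    intro u; rw [hA₂]; unfold slice; rw [Finset.mem_filter]
  have h01 : (0 : G) ∈ A₁ := (hm₁ 0).2 ⟨hK.zero, by rwa [add_zero]⟩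
  have h02 : (0 : G) ∈ A₂ := (hm₂ 0).2 ⟨hK.zero, by rwa [add_zero]⟩
  -- disjointness
  have hdis : Disjoint (A₁.image (fun u => y₀ - u)) (ns A₂ m) := by
    rw [Finset.disjoint_left]
    intro w hw hw'
    obtain ⟨u, hu, rfl⟩ := Finset.mem_image.1 hw
    rw [mem_ns_iff] at hw'
    obtain ⟨f, hf, hfs⟩ := hw'
    apply hx
    rw [show m + 1 = 1 + m by omega, ns_add, ns_one]
    refine Finset.mem_add.2 ⟨a₁ + u, ((hm₁ u).1 hu).2, x - (a₁ + u), ?_, by abel⟩
    rw [mem_ns_iff]
    refine ⟨fun i => a₂ + f i, fun i => ((hm₂ _).1 (hf i)).2, ?_⟩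
    rw [Finset.sum_add_distrib, Finset.sum_const, Finset.card_univ, Fintype.card_fin, hfs, hy₀]
    abel
  have hsubK : A₁.image (fun u => y₀ - u) ∪ ns A₂ m ⊆ K := by
    apply Finset.union_subset
    · intro w hw
      obtain ⟨u, hu, rfl⟩ := Finset.mem_image.1 hw
      exact hK.sub hxa ((hm₁ u).1 hu).1
    · intro w hw
      rw [mem_ns_iff] at hw
      obtain ⟨f, hf, rfl⟩ := hw
      exact sub_sum_mem hK _ _ (fun i _ => ((hm₂ _).1 (hf i)).1)
  have hcard1 := Finset.card_le_card hsubK
  rw [Finset.card_union_of_disjoint hdis,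
    Finset.card_image_of_injective _ (sub_right_injective)] at hcard1
  have hsub2 : A₂ ⊆ ns A₂ 2 := by
    have := ns_subset_ns_of_zero h02 (show 1 ≤ 2 by omega)
    rwa [ns_one] at this
  have hsub3 : ns A₂ 2 ⊆ ns A₂ m := ns_subset_ns_of_zero h02 hm
  have hle2 := Finset.card_le_card hsub2
  have hle3 := Finset.card_le_card hsub3
  have heq2 : A₂ = ns A₂ 2 := Finset.eq_of_subset_of_card_le hsub2 (by omega)
  have heq3 : ns A₂ 2 = ns A₂ m := Finset.eq_of_subset_of_card_le hsub3 (by omega)
  have hadd : ∀ u ∈ A₂, ∀ v ∈ A₂, u + v ∈ A₂ := by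
    intro u hu v hv
    have h1 : u + v ∈ ns A₂ 2 := by
      rw [show 2 = 1 + 1 from rfl, ns_add, ns_one]
      exact Finset.add_mem_add hu hv
    rwa [← heq2] at h1
  have hL : IsSub A₂ := isSub_of_add h02 hadd
  have hnsm : ns A₂ m = A₂ := by rw [← heq3, ← heq2]
  rw [hnsm] at hdis hsubK hcard1
  -- the union is everything
  have hun : A₁.image (fun u => y₀ - u) ∪ A₂ = K := by
    apply Finset.eq_of_subset_of_card_le hsubK
    rw [Finset.card_union_of_disjoint hdis,
      Finset.card_image_of_injective _ (sub_right_injective)]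
    exact hsum
  have hchar : ∀ u ∈ K, (u ∈ A₁ ↔ y₀ - u ∉ A₂) := by
    intro u hu
    constructor
    · intro h1 h2
      exact (Finset.disjoint_left.1 hdis) (Finset.mem_image_of_mem _ h1) h2
    · intro h1
      have h2 : y₀ - u ∈ A₁.image (fun u => y₀ - u) ∪ A₂ := by
        rw [hun]; exact hK.sub hxa hu
      rw [Finset.mem_union] at h2
      rcases h2 with h2 | h2
      · obtain ⟨v, hv, hvu⟩ := Finset.mem_image.1 h2
        have : v = u := by
          have h3 : y₀ - v = y₀ - u := hvu
          exact sub_right_injective h3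
        rwa [← this]
      · exact absurd h2 h1
  -- `A` is periodic under `A₂`
  have hAper : ∀ a ∈ A, ∀ l ∈ A₂, l + a ∈ A := by
    intro a ha l hl
    have hlK : l ∈ K := ((hm₂ l).1 hl).1
    by_cases h2 : a - a₂ ∈ K
    · have h3 : a - a₂ ∈ A₂ := (hm₂ _).2 ⟨h2, by rwa [show a₂ + (a - a₂) = a by abel]⟩
      have h4 := ((hm₂ _).1 (hadd _ hl _ h3)).2
      rwa [show a₂ + (l + (a - a₂)) = l + a by abel] at h4
    · by_cases h1 : a - a₁ ∈ K
      · have h3 : a - a₁ ∈ A₁ := (hm₁ _).2 ⟨h1, by rwa [show a₁ + (a - a₁) = a by abel]⟩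
        have h4 : l + (a - a₁) ∈ A₁ := by
          rw [hchar _ (hK.add hlK h1)]
          intro h5
          apply (hchar _ h1).1 h3
          have h6 := hadd _ h5 _ hl
          rwa [show y₀ - (l + (a - a₁)) + l = y₀ - (a - a₁) by abel] at h6
        have h5 := ((hm₁ _).1 h4).2
        rwa [show a₁ + (l + (a - a₁)) = l + a by abel] at h5
      · apply slice_full (hfull a ha h1 h2)
        rwa [show l + a - a = l by abel]
  have hstab : A₂ ⊆ stab (ns A (m + 1)) := by
    intro l hl
    rw [mem_stab (ns_nonempty ⟨a₁, ha₁⟩ _)]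
    intro y hy
    rw [ns_succ] at hy ⊢
    obtain ⟨u, hu, v, hv, rfl⟩ := Finset.mem_add.1 hy
    rw [add_left_comm]
    exact Finset.add_mem_add hu (hAper v hv l hl)
  have hone := (Finset.card_le_card hstab).trans hper
  have hzero : ∀ l ∈ A₂, l = 0 := fun l hl => Finset.card_le_one.1 hone l hl 0 h02
  refine ⟨fun y hy => ?_, a₁ + y₀, ?_, fun y hy => ?_⟩
  · constructor
    · intro hyA
      have h3 : y - a₂ ∈ A₂ := (hm₂ _).2 ⟨hy, by rwa [show a₂ + (y - a₂) = y by abel]⟩
      exact sub_eq_zero.1 (hzero _ h3)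
    · rintro rfl
      exact ha₂
  · rwa [show a₁ + y₀ - a₁ = y₀ by abel]
  · have h3 : y ∈ A ↔ y - a₁ ∈ A₁ := by
      rw [hm₁, show a₁ + (y - a₁) = y by abel]
      exact ⟨fun h => ⟨hy, h⟩, fun h => h.2⟩
    rw [h3, hchar _ hy]
    constructor
    · rintro h4 rfl
      apply h4
      rwa [show y₀ - (a₁ + y₀ - a₁) = 0 by abel]
    · intro h4 h5
      apply h4
      have := hzero _ h5
      have h6 : y₀ = y - a₁ := sub_eq_zero.1 this
      rw [h6]; abel

end general

section quot

variable {Q : Type*} [AddCommGroup Q] [DecidableEq Q] [Fintype Q]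

lemma count_tie {B C : Finset Q} {m k : ℕ} (hC : C.Nonempty) (hB : B.card = k + 1)
    (hNQ : ∀ P : Finset Q, IsSub P → 2 ≤ P.card → P.card < Fintype.card Q →
      B.card + P.card ≤ (B + P).card)
    {z : Q} (hz : z ∉ C + ns B m) : C.card + m * k + 1 ≤ Fintype.card Q := by
  have hBne : B.Nonempty := by rw [← Finset.card_pos]; omega
  have hk := kneser_iter hC hBne m
  have hWne : (C + ns B m).Nonempty := hC.add (ns_nonempty hBne m)
  set W := C + ns B m with hW
  set S := stab W with hS
  have hSs : IsSub S := isSub_stab hWne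
  have h1 : C.card ≤ (C + S).card := Finset.card_le_card (subset_add_sub hSs C)
  have hSlt : S.card < Fintype.card Q := by
    rcases (Finset.card_le_univ S).lt_or_eq with h | h
    · exact h
    · exfalso
      have h2 : S = Finset.univ := Finset.eq_univ_of_card _ h
      obtain ⟨w, hw⟩ := hWne
      apply hz
      have h3 : z - w ∈ S := by rw [h2]; exact Finset.mem_univ _
      have := add_mem_of_mem_stab h3 hw
      rwa [sub_add_cancel] at this
  have hWlt : W.card + 1 ≤ Fintype.card Q := by
    have h2 : (insert z W).card ≤ Fintype.card Q := Finset.card_le_univ _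
    rw [Finset.card_insert_of_notMem hz] at h2
    exact h2
  rcases Nat.lt_or_ge S.card 2 with h2 | h2
  · have h3 : B.card ≤ (B + S).card := Finset.card_le_card (subset_add_sub hSs B)
    have h4 : m * (k + 1) ≤ m * (B + S).card := Nat.mul_le_mul_left _ (by omega)
    have h5 : m * S.card ≤ m * 1 := Nat.mul_le_mul_left _ (by omega)
    have e1 : m * (k + 1) = m * k + m := by ring
    omega
  · have h3 := hNQ S hSs h2 hSlt
    have h4 : m * (k + 1 + S.card) ≤ m * (B + S).card := Nat.mul_le_mul_left _ (by omega)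
    have e1 : m * (k + 1 + S.card) = m * k + m + m * S.card := by ring
    omega

/-- **The structure of the image in the quotient.** -/
theorem prog_tie {B : Finset Q} {m k : ℕ} (hm : 2 ≤ m) (hkodd : Odd k)
    (hN : Fintype.card Q = (m + 1) * k) (hB : B.card = k + 1)
    (hNQ : ∀ P : Finset Q, IsSub P → 2 ≤ P.card → P.card < Fintype.card Q →
      B.card + P.card ≤ (B + P).card)
    (h0 : (0 : Q) ∈ B) {g : Q} (hgB : g ∈ B) (hodd : ∀ y : Q, y + y = 0 → y = 0)
    (hU : ∀ b ∈ B, ∀ s ∈ ns B m, b + s = g → b = 0 ∨ b = g) :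
    ∃ x : Q, (∀ y : Q, y ∈ AddSubgroup.zmultiples x) ∧ g = x ∧
      B = (Finset.range (k + 1)).image (fun i : ℕ => i • x) := by
  classical
  have hk : 1 ≤ k := by
    rcases hkodd with ⟨t, rfl⟩; omega
  have hmk : (m + 1) * k = k + m * k := by ring
  have hsub1 : B ⊆ ns B m := by
    have := ns_subset_ns_of_zero h0 (show 1 ≤ m by omega)
    rwa [ns_one] at this
  have hsub2 : ns B 2 ⊆ ns B m := ns_subset_ns_of_zero h0 hm
  -- `g ≠ 0`
  have hg0 : g ≠ 0 := by
    intro hg
    have hC : (B.erase 0).card = k := by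
      rw [Finset.card_erase_of_mem h0, hB]; rfl
    have hCne : (B.erase 0).Nonempty := by rw [← Finset.card_pos]; omega
    have h1 : g ∉ B.erase 0 + ns B m := by
      intro h
      obtain ⟨b, hb, s, hs, hbs⟩ := Finset.mem_add.1 h
      rw [Finset.mem_erase] at hb
      rcases hU b hb.2 s hs hbs with h2 | h2
      · exact hb.1 h2
      · exact hb.1 (h2.trans hg)
    have h2 := count_tie hCne hB hNQ h1
    omega
  -- `b + c = 0`
  have hneg : ∀ b ∈ B, ∀ c ∈ B, b + c = 0 → b = 0 := by
    intro b hb c hc hbc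
    have h1 : ∀ b ∈ B, ∀ c ∈ B, b + c = 0 → b = 0 ∨ b = g := by
      intro b hb c hc hbc
      apply hU b hb (c + g) (hsub2 _)
      · rw [← add_assoc, hbc, zero_add]
      · rw [show 2 = 1 + 1 from rfl, ns_add, ns_one]
        exact Finset.add_mem_add hc hgB
    rcases h1 b hb c hc hbc with h2 | h2
    · exact h2
    · rcases h1 c hc b hb (by rw [add_comm]; exact hbc) with h3 | h3
      · rw [h3, add_zero] at hbc; exact hbc
      · rw [h2, h3] at hbc
        exact absurd (hodd g hbc) hg0
  -- the progression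
  obtain ⟨a, x, hgen, hBx⟩ : ∃ a x : Q, (∀ y : Q, y ∈ AddSubgroup.zmultiples x) ∧
      B = (Finset.range B.card).image (fun i : ℕ => a + i • x) := by
    rcases Nat.lt_or_ge k 3 with hk3 | hk3
    · have hk1 : k = 1 := by
        rcases hkodd with ⟨t, rfl⟩; omega
      subst hk1
      have hBg : B = {0, g} := by
        symm
        apply Finset.eq_of_subset_of_card_le
        · intro z hz
          rw [Finset.mem_insert, Finset.mem_singleton] at hz
          rcases hz with rfl | rfl
          · exact h0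
          · exact hgB
        · rw [Finset.card_pair (Ne.symm hg0), hB]
      have h1 : (B ∪ tr B g).card ≤ B.card + 1 := by
        have h2 : B ∪ tr B g ⊆ insert (g + g) B := by
          intro z hz
          rw [Finset.mem_union, mem_tr] at hz
          rw [Finset.mem_insert]
          rcases hz with hz | hz
          · exact Or.inr hz
          · rw [hBg, Finset.mem_insert, Finset.mem_singleton] at hz
            rcases hz with hz | hz
            · right
              rw [sub_eq_zero.1 hz]; exact hgB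
            · left
              rw [sub_eq_iff_eq_add.1 hz]
        exact (Finset.card_le_card h2).trans (Finset.card_insert_le _ _)
      obtain ⟨a, ha⟩ := ap_case hg0 (by omega) hNQ h1
      exact ⟨a, g, ha.1, ha.2⟩
    · set C := (B.erase 0).erase g with hC
      have hgB' : g ∈ B.erase 0 := Finset.mem_erase.2 ⟨hg0, hgB⟩
      have hCc : C.card = k - 1 := by
        rw [hC, Finset.card_erase_of_mem hgB', Finset.card_erase_of_mem h0, hB]; rfl
      have hCne : C.Nonempty := by rw [← Finset.card_pos]; omega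
      have hBne : B.Nonempty := ⟨0, h0⟩
      have h1 : g ∉ (C + B) + ns B (m - 1) := by
        rw [add_assoc]
        intro h
        obtain ⟨b, hb, s, hs, hbs⟩ := Finset.mem_add.1 h
        rw [hC, Finset.mem_erase, Finset.mem_erase] at hb
        have hs' : s ∈ ns B m := by
          rw [show m = 1 + (m - 1) by omega, ns_add, ns_one]
          exact hs
        rcases hU b hb.2.2 s hs' hbs with h2 | h2
        · exact hb.2.1 h2
        · exact hb.1 h2
      have h2 := count_tie (hCne.add hBne) hB hNQ h1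
      obtain ⟨m', rfl⟩ := Nat.exists_eq_add_of_le hm
      have e1 : (2 + m' + 1) * k = 3 * k + m' * k := by ring
      have e2 : (2 + m' - 1) * k = k + m' * k := by
        rw [show 2 + m' - 1 = 1 + m' by omega]; ring
      rw [e2] at h2
      have h3 : (C + B).card + 1 ≤ 2 * k := by omega
      exact vosper (by omega) hNQ (by omega : 2 ≤ C.card) (by omega) (by omega)
  rw [hB] at hBx
  -- order of a generator
  have hx0 : ∀ x : Q, (∀ y : Q, y ∈ AddSubgroup.zmultiples x) → ∀ i : ℕ, 1 ≤ i → i ≤ k →
      i • x ≠ 0 := by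
    intro x hgen i hi hik hix
    have hord : addOrderOf x = Fintype.card Q := by
      exact addOrderOf_eq_card_of_forall_mem_zmultiples hgen |>.trans Nat.card_eq_fintype_card
    have h1 := addOrderOf_dvd_of_nsmul_eq_zero hix
    rw [hord, hN] at h1
    have h2 := Nat.le_of_dvd (by omega) h1
    have h3 : 1 * k ≤ m * k := Nat.mul_le_mul_right _ (by omega)
    omega
  -- normalisation
  obtain ⟨x, hgen, hBx⟩ : ∃ x : Q, (∀ y : Q, y ∈ AddSubgroup.zmultiples x) ∧
      B = (Finset.range (k + 1)).image (fun i : ℕ => i • x) := by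
    have h1 := h0
    rw [hBx, Finset.mem_image] at h1
    obtain ⟨i₀, hi₀, hi⟩ := h1
    rw [Finset.mem_range] at hi₀
    have ha : a = - (i₀ • x) := eq_neg_of_add_eq_zero_left hi
    rcases Nat.eq_zero_or_pos i₀ with hz | hpos
    · refine ⟨x, hgen, ?_⟩
      rw [hz, zero_smul, neg_zero] at ha
      rw [ha] at hBx
      simpa using hBx
    rcases Nat.lt_or_ge i₀ k with hlt | hge
    · exfalso
      have hb : x ∈ B := by
        rw [hBx, Finset.mem_image]
        refine ⟨i₀ + 1, Finset.mem_range.2 (by omega), ?_⟩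
        show a + (i₀ + 1) • x = x
        rw [ha, succ_nsmul]; abel
      have hc : -x ∈ B := by
        rw [hBx, Finset.mem_image]
        refine ⟨i₀ - 1, Finset.mem_range.2 (by omega), ?_⟩
        obtain ⟨j, hj⟩ := Nat.exists_eq_add_of_le (show 1 ≤ i₀ from hpos)
        show a + (i₀ - 1) • x = -x
        rw [ha, hj, show 1 + j - 1 = j by omega, add_smul, one_smul]; abel
      have h2 := hneg x hb (-x) hc (add_neg_cancel x)
      exact hx0 x hgen 1 (by omega) (by omega) (by rw [one_smul]; exact h2)
    · have hik : i₀ = k := by omega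
      rw [hik] at ha
      refine ⟨-x, fun y => ?_, ?_⟩
      · have h2 := hgen y
        rw [AddSubgroup.mem_zmultiples_iff] at h2 ⊢
        obtain ⟨t, ht⟩ := h2
        exact ⟨-t, by simpa using ht⟩
      · ext y
        rw [hBx, Finset.mem_image, Finset.mem_image]
        constructor
        · rintro ⟨i, hi, rfl⟩
          rw [Finset.mem_range] at hi
          refine ⟨k - i, Finset.mem_range.2 (by omega), ?_⟩
          obtain ⟨j, hj⟩ := Nat.exists_eq_add_of_le (show i ≤ k by omega)
          show (k - i) • (-x) = a + i • x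
          rw [ha, hj, show i + j - i = j by omega, add_smul, smul_neg]; abel
        · rintro ⟨i, hi, rfl⟩
          rw [Finset.mem_range] at hi
          refine ⟨k - i, Finset.mem_range.2 (by omega), ?_⟩
          obtain ⟨j, hj⟩ := Nat.exists_eq_add_of_le (show i ≤ k by omega)
          show a + (k - i) • x = i • (-x)
          rw [ha, hj, show i + j - i = j by omega, add_smul, smul_neg]; abel
  refine ⟨x, hgen, ?_, hBx⟩
  have h1 := hgB
  rw [hBx, Finset.mem_image] at h1
  obtain ⟨i₁, hi₁, hi⟩ := h1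
  rw [Finset.mem_range] at hi₁
  have hi' : i₁ • x = g := hi
  rcases Nat.lt_or_ge i₁ 2 with hlt | hge
  · rcases Nat.eq_zero_or_pos i₁ with hz | hpos
    · rw [hz, zero_smul] at hi'
      exact absurd hi'.symm hg0
    · have : i₁ = 1 := by omega
      rw [this, one_smul] at hi'
      exact hi'.symm
  · exfalso
    have hb : x ∈ B := by
      rw [hBx, Finset.mem_image]
      exact ⟨1, Finset.mem_range.2 (by omega), one_smul _ _⟩
    have hc : (i₁ - 1) • x ∈ B := by
      rw [hBx, Finset.mem_image]
      exact ⟨i₁ - 1, Finset.mem_range.2 (by omega), rfl⟩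
    obtain ⟨j, hj⟩ := Nat.exists_eq_add_of_le hge
    have hj1 : i₁ - 1 = 1 + j := by omega
    rw [hj1] at hc
    rcases hU x hb _ (hsub1 hc) (by
      rw [← hi', hj, add_smul, add_smul, one_smul, show (2 : ℕ) = 1 + 1 from rfl, add_smul,
        one_smul]; abel) with h2 | h2
    · exact hx0 x hgen 1 (by omega) (by omega) (by rw [one_smul]; exact h2)
    · apply hx0 x hgen (1 + j) (by omega) (by omega)
      have h3 : i₁ • x = x := by rw [hi']; exact h2.symm
      rw [hj, show 2 + j = 1 + j + 1 by omega, succ_nsmul] at h3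
      simpa using h3

end quot

/-- the bound `h v₁ ≤ n` in the tame case -/
lemma tame_v1 {n h : ℕ} (hh : 2 ≤ h) (ht : Tame n h) : h * v1 n h ≤ n := by
  have h1 : v1 n h ≤ n / h := by
    unfold v1
    apply Finset.sup_le
    intro d hd
    obtain ⟨hdn, hn0⟩ := Nat.mem_divisors.1 hd
    by_cases hd1 : d = 1
    · simp [hd1]
    · rw [if_neg hd1, Nat.le_div_iff_mul_le (by omega)]
      have hdpos : 0 < d := Nat.pos_of_dvd_of_pos hdn (Nat.pos_of_ne_zero hn0)
      have h2 := ht d hdn
      have h3 := Nat.div_add_mod d h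
      have h4 : (d - 2) / h < d / h := by
        apply Nat.div_lt_of_lt_mul
        rcases Nat.eq_zero_or_pos (d / h) with h5 | h5
        · rw [h5] at h3
          omega
        · have h6 : h * 1 ≤ h * (d / h) := Nat.mul_le_mul_left _ h5
          omega
      have h5 : ((d - 2) / h + 1) * h ≤ d := by
        calc ((d - 2) / h + 1) * h ≤ (d / h) * h := Nat.mul_le_mul_right _ h4
          _ ≤ d := Nat.div_mul_le_self d h
      calc ((d - 2) / h + 1) * (n / d) * h = ((d - 2) / h + 1) * h * (n / d) := by ring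
        _ ≤ d * (n / d) := Nat.mul_le_mul_right _ h5
        _ ≤ n := Nat.mul_div_le n d
  calc h * v1 n h ≤ h * (n / h) := Nat.mul_le_mul_left _ h1
    _ ≤ n := Nat.mul_div_le n h

/-- (P6) a subgroup with `|A + H| = |A| + |H|` -/
theorem tie_case (n h k ε : ℕ) [NeZero n] (hh : 3 ≤ h) (ht : Tame n h) (hn : n = h * k + ε)
    (hε : ε ≤ 1) {A : Finset (ZMod n)} (hk : A.card = k) (hA : ns A h ≠ Finset.univ)
    (hper : (stab (ns A h)).card ≤ 1) (hNQ : NQ 0 A) {H : Finset (ZMod n)} (hH : IsSub H)
    (hH2 : 2 ≤ H.card) (hHn : H.card < n) (htie : (A + H).card = A.card + H.card) :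
    HoleMod h A := by
  classical
  -- maximal choice
  obtain ⟨K, ⟨hK, hK2, hKn, hKtie⟩, hKmax⟩ : ∃ K : Finset (ZMod n),
      (IsSub K ∧ 2 ≤ K.card ∧ K.card < n ∧ (A + K).card = A.card + K.card) ∧
      ∀ K' : Finset (ZMod n), (IsSub K' ∧ 2 ≤ K'.card ∧ K'.card < n ∧
        (A + K').card = A.card + K'.card) → K'.card ≤ K.card := by
    obtain ⟨K, hK1, hK2⟩ := Finset.exists_max_image
      (Finset.univ.filter (fun K : Finset (ZMod n) => IsSub K ∧ 2 ≤ K.card ∧ K.card < n ∧
        (A + K).card = A.card + K.card)) (fun K => K.card)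
      ⟨H, Finset.mem_filter.2 ⟨Finset.mem_univ _, hH, hH2, hHn, htie⟩⟩
    exact ⟨K, (Finset.mem_filter.1 hK1).2, fun K' hK' => hK2 K'
      (Finset.mem_filter.2 ⟨Finset.mem_univ _, hK'⟩)⟩
  obtain ⟨m, rfl⟩ : ∃ m, h = m + 1 := ⟨h - 1, by omega⟩
  have hnpos : 0 < n := NeZero.pos n
  -- odd order
  have hnodd : Odd n := by
    rw [← Nat.not_even_iff_odd]
    intro he
    have h2 := ht 2 he.two_dvd
    rw [Nat.mod_eq_of_lt (by omega)] at h2
    omega
  obtain ⟨d, hdn, hKd, hker⟩ := sub_eq_ker n hK
  have hdpos : 0 < d := Nat.pos_of_dvd_of_pos hdn hnpos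
  have hd0 : NeZero d := ⟨hdpos.ne'⟩
  set f : ZMod n →+ ZMod d := (ZMod.castHom hdn (ZMod d)).toAddMonoidHom with hf
  have hfs : Function.Surjective f := ZMod.castHom_surjective hdn
  have hfk : ∀ x, x ∈ K ↔ f x = 0 := hker
  have hfk2 : ∀ x y, x - y ∈ K ↔ f x = f y := by
    intro x y; rw [hfk, map_sub, sub_eq_zero]
  have hKpos : 0 < K.card := by omega
  have hpre : ∀ M : Finset (ZMod n), M + K = pre f (M.image f) := by
    intro M
    ext x
    rw [mem_pre, Finset.mem_image, Finset.mem_add]
    constructor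
    · rintro ⟨a, ha, k, hk, rfl⟩
      exact ⟨a, ha, by rw [map_add, (hfk k).1 hk, add_zero]⟩
    · rintro ⟨a, ha, hax⟩
      refine ⟨a, ha, x - a, ?_, by abel⟩
      rw [hfk, map_sub, hax, sub_self]
  have hprec : ∀ B : Finset (ZMod d), (pre f B).card = B.card * K.card := by
    intro B
    have h1 := card_pre hfs B
    rw [ZMod.card, ZMod.card] at h1
    have h2 : (pre f B).card * d = (B.card * K.card) * d := by
      rw [h1, mul_assoc, hKd]
    exact Nat.eq_of_mul_eq_mul_right hdpos h2
  set B := A.image f with hB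
  have hBc : B.card * K.card = k + K.card := by
    rw [← hprec, ← hpre, hKtie, hk]
  obtain ⟨k', hk'⟩ : ∃ k', B.card = k' + 1 := by
    rcases Nat.eq_zero_or_pos B.card with h0 | h0
    · rw [h0, zero_mul] at hBc; omega
    · exact ⟨B.card - 1, by omega⟩
  have hkk : k = k' * K.card := by
    rw [hk', add_mul, one_mul] at hBc; omega
  -- `ε = 0`
  have hε0 : ε = 0 := by
    have h1 : K.card ∣ ε := by
      have h2 : K.card ∣ (m + 1) * k := by
        rw [hkk]; exact Dvd.intro_left ((m + 1) * k') (by ring)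
      have h3 : K.card ∣ (m + 1) * k + ε := by
        rw [← hn]; exact Dvd.intro d hKd
      exact (Nat.dvd_add_right h2).1 h3
    rcases Nat.eq_zero_or_pos ε with h2 | h2
    · exact h2
    · have := Nat.le_of_dvd h2 h1
      omega
  subst hε0
  have hd : d = (m + 1) * k' := by
    have h1 : K.card * d = K.card * ((m + 1) * k') := by
      calc K.card * d = n := hKd
        _ = (m + 1) * k + 0 := hn
        _ = K.card * ((m + 1) * k') := by rw [hkk]; ring
    exact Nat.eq_of_mul_eq_mul_left hKpos h1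
  have hdodd : Odd d := hnodd.of_dvd_nat hdn
  have hk'odd : Odd k' := hdodd.of_dvd_nat (by rw [hd]; exact Dvd.intro_left (m + 1) rfl)
  have hKodd : Odd K.card := hnodd.of_dvd_nat (Dvd.intro d hKd)
  have hk'1 : 1 ≤ k' := by
    rcases hk'odd with ⟨t, rfl⟩; omega
  have hodd : ∀ y : ZMod d, y + y = 0 → y = 0 := by
    intro y hy
    have h1 : (2 : ℕ) • y = 0 := by rw [two_nsmul]; exact hy
    have h2 : d • y = 0 := by
      rw [nsmul_eq_mul]; simp
    obtain ⟨t, ht'⟩ := hdodd
    have h3 : (2 * t + 1) • y = 0 := by rw [← ht']; exact h2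
    rw [add_smul, one_smul, mul_comm, mul_smul, h1, smul_zero, zero_add] at h3
    exact h3
  -- the subgroups of the quotient
  have hNQB : ∀ P : Finset (ZMod d), IsSub P → 2 ≤ P.card → P.card < Fintype.card (ZMod d) →
      B.card + P.card ≤ (B + P).card := by
    intro P hP hP2 hPd
    rw [ZMod.card] at hPd
    set P' := pre f P with hP'
    have hP's : IsSub P' := by
      refine ⟨?_, ?_, ?_⟩
      · rw [hP', mem_pre, map_zero]; exact hP.zero
      · intro g h hg hh
        rw [hP', mem_pre] at hg hh ⊢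
        rw [map_add]; exact hP.add hg hh
      · intro g hg
        rw [hP', mem_pre] at hg ⊢
        rw [map_neg]; exact hP.neg hg
    have hP'c : P'.card = P.card * K.card := hprec P
    have hAP : A + P' = pre f (B + P) := by
      ext x
      rw [mem_pre, Finset.mem_add, Finset.mem_add]
      constructor
      · rintro ⟨a, ha, p, hp, rfl⟩
        exact ⟨f a, Finset.mem_image_of_mem f ha, f p, mem_pre.1 hp, (map_add f a p).symm⟩
      · rintro ⟨b, hb, p, hp, hbp⟩
        obtain ⟨a, ha, rfl⟩ := Finset.mem_image.1 hb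
        refine ⟨a, ha, x - a, ?_, by abel⟩
        rw [hP', mem_pre, map_sub, ← hbp, add_sub_cancel_left]
        exact hp
    have h2K : 2 * K.card ≤ P.card * K.card := Nat.mul_le_mul_right _ hP2
    have hPK : P.card * K.card < n := by
      calc P.card * K.card < d * K.card := Nat.mul_lt_mul_of_pos_right hPd hKpos
        _ = n := by rw [mul_comm]; exact hKd
    have h1 := hNQ P' hP's (by omega) (by rw [ZMod.card, hP'c]; exact hPK)
    have h2 : (A + P').card ≠ A.card + P'.card := by
      intro h3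
      have := hKmax P' ⟨hP's, by omega, by rw [hP'c]; exact hPK, h3⟩
      omega
    have h5 : (A + P').card = (B + P).card * K.card := by rw [hAP, hprec]
    rw [h5, hP'c, hk, hkk] at h1 h2
    have h3 : (k' + P.card) * K.card < (B + P).card * K.card := by
      rw [add_mul]; omega
    have h4 := Nat.lt_of_mul_lt_mul_right h3
    omega
  -- the missing element
  obtain ⟨x, hx⟩ : ∃ x, x ∉ ns A (m + 1) := by
    by_contra hcon
    push Not at hcon
    exact hA (Finset.eq_univ_iff_forall.2 hcon)
  have hrep : ∀ b : Fin (m + 1) → ZMod n, (∀ i, b i ∈ A) → x - ∑ i, b i ∈ K →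
      ∀ i j, i ≠ j → (slice A K (b i)).card + (slice A K (b j)).card ≤ K.card :=
    fun b hb hbx i j hij => rep_slices hK hx hb hbx hij
  have htwo : ∀ a ∈ A, ∀ b ∈ A, a - b ∉ K →
      K.card ≤ (slice A K a).card + (slice A K b).card := by
    intro a ha b hb hab
    have := holes hK ha hb hab
    omega
  have hthree : ∀ a ∈ A, ∀ b ∈ A, ∀ c ∈ A, a - b ∉ K → a - c ∉ K → b - c ∉ K →
      2 * K.card ≤ (slice A K a).card + (slice A K b).card + (slice A K c).card := by
    intro a ha b hb c hc hab hac hbc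
    have := holes_three hK ha hb hc hab hac hbc
    omega
  -- a representation
  obtain ⟨a, ha, hax⟩ : ∃ a : Fin (m + 1) → ZMod n, (∀ i, a i ∈ A) ∧ x - ∑ i, a i ∈ K := by
    have h1 : f x ∈ ns B (m + 1) := by
      by_contra hcon
      have h2 : ns B (m + 1) ≠ Finset.univ := by
        intro h3; rw [h3] at hcon; exact hcon (Finset.mem_univ _)
      have h3 := card_le_v1 d h2
      have h4 : Tame d (m + 1) := fun e he => ht e (he.trans hdn)
      have h5 := tame_v1 (by omega) h4
      have h6 : (m + 1) * (k' + 1) ≤ (m + 1) * v1 d (m + 1) := by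
        rw [← hk']; exact Nat.mul_le_mul_left _ h3
      have e1 : (m + 1) * (k' + 1) = (m + 1) * k' + (m + 1) := by ring
      omega
    rw [hB, ← image_ns, Finset.mem_image] at h1
    obtain ⟨y, hy, hyx⟩ := h1
    rw [mem_ns_iff] at hy
    obtain ⟨a, ha, rfl⟩ := hy
    exact ⟨a, ha, by rw [hfk2]; exact hyx.symm⟩
  -- the small class
  obtain ⟨a₂, ha₂, ha₂s⟩ : ∃ a₂ ∈ A, 2 * (slice A K a₂).card < K.card := by
    have h01 : (0 : Fin (m + 1)) ≠ ⟨1, by omega⟩ := by
      intro h; rw [Fin.ext_iff] at h; simp at h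
    have h1 := hrep a ha hax _ _ h01
    obtain ⟨t, ht⟩ := hKodd
    rcases Nat.lt_or_ge (2 * (slice A K (a 0)).card) K.card with h2 | h2
    · exact ⟨_, ha _, h2⟩
    · exact ⟨_, ha ⟨1, by omega⟩, by omega⟩
  have hsmall : ∀ a ∈ A, 2 * (slice A K a).card < K.card → a - a₂ ∈ K := by
    intro a ha h1
    by_contra h2
    have := htwo a ha a₂ ha₂ h2
    omega
  have hpair : ∀ b : Fin (m + 1) → ZMod n, (∀ i, b i ∈ A) → x - ∑ i, b i ∈ K →
      ∀ i j, i ≠ j → b i - a₂ ∈ K ∨ b j - a₂ ∈ K := by
    intro b hb hbx i j hij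
    have h1 := hrep b hb hbx i j hij
    obtain ⟨t, ht⟩ := hKodd
    rcases Nat.lt_or_ge (2 * (slice A K (b i)).card) K.card with h2 | h2
    · exact Or.inl (hsmall _ (hb i) h2)
    · exact Or.inr (hsmall _ (hb j) (by omega))
  -- structure of the representations
  set c := x - m • a₂ with hc
  have hstruct : ∀ b : Fin (m + 1) → ZMod n, (∀ i, b i ∈ A) → x - ∑ i, b i ∈ K →
      ∀ i, b i - a₂ ∈ K ∨ b i - c ∈ K := by
    intro b hb hbx i
    by_cases h1 : b i - a₂ ∈ K
    · exact Or.inl h1
    · right
      have h2 : ∀ j, j ≠ i → b j - a₂ ∈ K := by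
        intro j hj
        rcases hpair b hb hbx j i hj with h3 | h3
        · exact h3
        · exact absurd h3 h1
      have h3 : ∑ j ∈ Finset.univ.erase i, (b j - a₂) ∈ K :=
        sub_sum_mem hK _ _ (fun j hj => h2 j (Finset.ne_of_mem_erase hj))
      rw [Finset.sum_sub_distrib, Finset.sum_const, Finset.card_erase_of_mem (Finset.mem_univ _),
        Finset.card_univ, Fintype.card_fin, Nat.add_sub_cancel] at h3
      have h4 : ∑ j, b j = b i + ∑ j ∈ Finset.univ.erase i, b j :=
        (Finset.add_sum_erase _ _ (Finset.mem_univ i)).symm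
      have h5 := hK.add hbx h3
      have h6 := hK.neg h5
      rw [h4] at h6
      rw [hc]
      rwa [show -(x - (b i + ∑ j ∈ Finset.univ.erase i, b j) +
        (∑ j ∈ Finset.univ.erase i, b j - m • a₂)) = b i - (x - m • a₂) by abel] at h6
  -- the class of `c`
  obtain ⟨a₁, ha₁, ha₁c⟩ : ∃ a₁ ∈ A, a₁ - c ∈ K := by
    by_cases h1 : ∃ i, a i - c ∈ K
    · obtain ⟨i, hi⟩ := h1
      exact ⟨a i, ha i, hi⟩
    · push Not at h1
      refine ⟨a₂, ha₂, ?_⟩
      have h2 : ∀ i, a i - a₂ ∈ K := by
        intro i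
        rcases hstruct a ha hax i with h3 | h3
        · exact h3
        · exact absurd h3 (h1 i)
      have h3 : ∑ i, (a i - a₂) ∈ K := sub_sum_mem hK _ _ (fun i _ => h2 i)
      rw [Finset.sum_sub_distrib, Finset.sum_const, Finset.card_univ, Fintype.card_fin] at h3
      have h4 := hK.neg (hK.add hax h3)
      rw [hc]
      rwa [show -(x - ∑ i, a i + (∑ i, a i - (m + 1) • a₂)) = a₂ - (x - m • a₂) by
        rw [succ_nsmul]; abel] at h4
  have hfc : f a₁ = f c := (hfk2 _ _).1 ha₁c
  set B' := tr B (-(f a₂)) with hB'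
  have hmB' : ∀ z, z ∈ B' ↔ z + f a₂ ∈ B := by
    intro z; rw [hB', mem_tr, sub_neg_eq_add]
  obtain ⟨δ, hgen, hg, hBδ⟩ := prog_tie (Q := ZMod d) (B := B') (m := m) (k := k')
    (g := f a₁ - f a₂) (by omega) hk'odd (by rw [ZMod.card]; exact hd)
    (by rw [hB', card_tr]; exact hk')
    (by
      intro P hP hP2 hPd
      rw [hB', tr_add, card_tr, card_tr]
      exact hNQB P hP hP2 hPd)
    (by rw [hmB', zero_add]; exact Finset.mem_image_of_mem f ha₂)
    (by rw [hmB', sub_add_cancel]; exact Finset.mem_image_of_mem f ha₁)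
    hodd
    (by
      intro b hb s hs hbs
      rw [hmB', hB, Finset.mem_image] at hb
      obtain ⟨β, hβ, hβb⟩ := hb
      rw [mem_ns_iff] at hs
      obtain ⟨φ, hφ, hφs⟩ := hs
      have h2 : ∀ i, ∃ y ∈ A, f y = φ i + f a₂ := by
        intro i
        have := hφ i
        rw [hmB', hB, Finset.mem_image] at this
        exact this
      choose y hy hyφ using h2
      have h3 := hstruct (Fin.cons β y) (by
        intro i
        refine Fin.cases ?_ ?_ i
        · simpa using hβ
        · intro i; simpa using hy i) (by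
        rw [hfk, Fin.sum_univ_succ]
        simp only [Fin.cons_zero, Fin.cons_succ]
        rw [map_sub, map_add, map_sum, hβb, Finset.sum_congr rfl (fun i _ => hyφ i),
          Finset.sum_add_distrib, hφs, Finset.sum_const, Finset.card_univ, Fintype.card_fin]
        have h4 : f x = f c + m • f a₂ := by
          rw [hc, map_sub, map_nsmul]; abel
        rw [h4, ← hfc, show f a₁ + m • f a₂ - (b + f a₂ + (s + m • f a₂))
          = (f a₁ - f a₂) - (b + s) by abel, hbs, sub_self]) 0
      simp only [Fin.cons_zero] at h3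
      rw [hfk2, hfk2, hβb, ← hfc] at h3
      rcases h3 with h3 | h3
      · left
        exact add_eq_right.1 h3
      · right
        exact eq_sub_of_add_eq h3)
  have hinj : Set.InjOn (fun i : ℕ => i • δ) (Finset.range (k' + 1) : Finset ℕ) := by
    rw [← Finset.card_image_iff, ← hBδ, hB', card_tr, Finset.card_range]
    exact hk'
  have hinj' : ∀ i j : ℕ, i ≤ k' → j ≤ k' → i • δ = j • δ → i = j := by
    intro i j hi hj hij
    exact hinj (by simpa [Nat.lt_succ_iff] using hi) (by simpa [Nat.lt_succ_iff] using hj) hij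
  have hmB : ∀ z, z ∈ B ↔ ∃ i : ℕ, i ≤ k' ∧ z = f a₂ + i • δ := by
    intro z
    have h1 : z ∈ B ↔ z - f a₂ ∈ B' := by rw [hmB', sub_add_cancel]
    rw [h1, hBδ, Finset.mem_image]
    constructor
    · rintro ⟨i, hi, hiz⟩
      rw [Finset.mem_range] at hi
      refine ⟨i, by omega, ?_⟩
      have h2 : i • δ = z - f a₂ := hiz
      rw [h2]; abel
    · rintro ⟨i, hi, hiz⟩
      refine ⟨i, Finset.mem_range.2 (by omega), ?_⟩
      show i • δ = z - f a₂
      rw [hiz]; abel
  have hf1 : f a₁ = f a₂ + 1 • δ := by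
    rw [one_smul, ← hg]; abel
  have h12 : a₁ - a₂ ∉ K := by
    rw [hfk2, hf1]
    intro h1
    have h2 : 1 • δ = 0 • δ := by
      rw [zero_smul]
      exact add_eq_left.1 h1
    have := hinj' 1 0 (by omega) (by omega) h2
    omega
  -- the slices
  have hrep12 : (slice A K a₁).card + (slice A K a₂).card ≤ K.card := by
    have h01 : (0 : Fin (m + 1)) ≠ (⟨0, by omega⟩ : Fin m).succ := by
      intro h; rw [Fin.ext_iff] at h; simp at h
    have h1 := hrep (Fin.cons a₁ (fun _ => a₂)) (by
        intro i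
        refine Fin.cases ?_ ?_ i
        · simpa using ha₁
        · intro i; simpa using ha₂) (by
        rw [hfk, Fin.sum_univ_succ]
        simp only [Fin.cons_zero, Fin.cons_succ]
        rw [Finset.sum_const, Finset.card_univ, Fintype.card_fin, map_sub, map_add, hfc, hc,
          map_sub]
        abel) _ _ h01
    simpa only [Fin.cons_zero, Fin.cons_succ] using h1
  have hfull : ∀ a ∈ A, a - a₁ ∉ K → a - a₂ ∉ K → K.card ≤ (slice A K a).card := by
    intro a ha h1 h2
    have := hthree a ha a₁ ha₁ a₂ ha₂ h1 h2 h12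
    omega
  obtain ⟨hS2, u, hu, hS1⟩ := slices_tie hK (by omega : 2 ≤ m) hx hper ha₁ ha₂
    (by rw [hfk, map_sub, map_sub, hfc, hc, map_sub]; abel) (htwo a₁ ha₁ a₂ ha₂ h12) hfull
  obtain ⟨j, hj⟩ : ∃ j, k' = j + 1 := ⟨k' - 1, by omega⟩
  have hfu : f u = f a₂ + 1 • δ := by rw [← hf1]; exact (hfk2 _ _).1 hu
  have hcls : ∀ i : ℕ, i ≤ k' → (f a₂ + (k' : ZMod d) * δ) + (i : ZMod d) * (-δ)
      = f a₂ + (k' - i) • δ := by
    intro i hi
    obtain ⟨t, ht'⟩ := Nat.exists_eq_add_of_le hi
    have h1 : k' - i = t := by omega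
    rw [h1, ht', nsmul_eq_mul]
    push_cast
    ring
  refine ⟨d, hdn, j, f a₂ + k' * δ, -δ, u, a₂, ?_, ?_, ?_, ?_, ?_⟩
  · rw [← hj]; exact hd.ge
  · obtain ⟨t, ht'⟩ := AddSubgroup.mem_zmultiples_iff.1 (hgen 1)
    rw [zsmul_eq_mul] at ht'
    exact (IsUnit.of_mul_eq_one (t : ZMod d) (by rw [mul_comm]; exact ht')).neg
  · have h1 := hcls j (by omega)
    rw [h1, show k' - j = 1 by omega]
    exact hfu
  · have h1 := hcls (j + 1) (by omega)
    rw [show k' - (j + 1) = 0 by omega, zero_smul, add_zero] at h1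
    push_cast at h1
    exact h1.symm
  · intro y
    show y ∈ A ↔ (∃ i : ℕ, i < j ∧ f y = f a₂ + k' * δ + i * -δ) ∨
      (f y = f a₂ + k' * δ + j * -δ ∧ y ≠ u) ∨ y = a₂
    constructor
    · intro hy
      obtain ⟨i, hi, hiy⟩ := (hmB (f y)).1 (Finset.mem_image_of_mem f hy)
      rcases Nat.eq_zero_or_pos i with h0 | h0
      · right; right
        rw [h0, zero_smul, add_zero] at hiy
        exact (hS2 y ((hfk2 _ _).2 hiy)).1 hy
      · rcases Nat.lt_or_ge i 2 with h2 | h2
        · right; left
          have hi1 : i = 1 := by omega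
          rw [hi1] at hiy
          refine ⟨?_, ?_⟩
          · rw [hcls j (by omega), show k' - j = 1 by omega]
            exact hiy
          · exact (hS1 y ((hfk2 _ _).2 (hiy.trans hf1.symm))).1 hy
        · left
          refine ⟨k' - i, by omega, ?_⟩
          rw [hcls (k' - i) (by omega), show k' - (k' - i) = i by omega]
          exact hiy
    · rintro (⟨i, hi, hiy⟩ | ⟨hy, hyu⟩ | rfl)
      · rw [hcls i (by omega)] at hiy
        have h1 : f y ∈ B := (hmB _).2 ⟨k' - i, by omega, hiy⟩
        rw [hB, Finset.mem_image] at h1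
        obtain ⟨z, hz, hzy⟩ := h1
        apply slice_full (b := z) (hfull z hz ?_ ?_) ((hfk2 _ _).2 hzy.symm)
        · rw [hfk2, hzy, hiy, hf1]
          intro h2
          have := hinj' (k' - i) 1 (by omega) (by omega) (add_left_cancel h2)
          omega
        · rw [hfk2, hzy, hiy]
          intro h2
          have h3 : (k' - i) • δ = 0 • δ := by
            rw [zero_smul]
            exact add_eq_left.1 h2
          have := hinj' (k' - i) 0 (by omega) (by omega) h3
          omega
      · rw [hcls j (by omega), show k' - j = 1 by omega] at hy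
        exact (hS1 y ((hfk2 _ _).2 (hy.trans hf1.symm))).2 hyu
      · exact ha₂

end Pool.Agent.Helper85.FF
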