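import Mathlib
import Pool.Agent.Helper20.FF.Scale
import Pool.Agent.Helper43.FF.Runs

/-!
# Two arcs with `A = G \ -2A`
-/

set_option autoImplicit false

open scoped Pointwise

namespace Pool.Agent.Helper85.FF

open Pool.Agent.Helper82.Kneser Pool.Agent.Helper20.Span Pool.Agent.Helper20.FF

lemma three_unit {n k : ℕ} (hn : n = 3 * k + 1) {u v : ZMod n} (h : 3 * u = 3 * v) : u = v := by
  have h0 : (3 * (k : ZMod n) + 1) = 0 := by
    have h1 : ((3 * k + 1 : ℕ) : ZMod n) = 0 := by rw [← hn]; exact ZMod.natCast_self n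
    push_cast at h1
    exact h1
  have h2 : u = - (k : ZMod n) * (3 * u) := by linear_combination u * h0
  have h3 : v = - (k : ZMod n) * (3 * v) := by linear_combination v * h0
  rw [h2, h, ← h3]

lemma cast_small {n j : ℕ} (h0 : 0 < j) (hj : j < n) : (j : ZMod n) ≠ 0 := by
  intro h
  rw [ZMod.natCast_eq_zero_iff] at h
  have := Nat.le_of_dvd h0 h
  omega

/-- the core of P7 -/
lemma two_core (n k t : ℕ) (hn : n = 3 * k + 1) (hkt : k = 2 * t) (ht : 2 ≤ t)
    {A : Finset (ZMod n)} (hcomp : ∀ y, y ∈ A ↔ -y ∉ A + A) {x y : ZMod n} {a b : ℕ}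
    (ha : 1 ≤ a) (hb : 1 ≤ b) (hab : a + b = k)
    (hm : ∀ z, z ∈ A ↔ (∃ c : ℕ, c < a ∧ z = x + c) ∨ ∃ c : ℕ, c < b ∧ z = y + c)
    (hxa : x + a ∉ A) (hyb : y + b ∉ A) (hee : x + a ≠ y + b) (hxy : 2 * x + y = 1) :
    Three₁ k A ∨ Three₂ k A := by
  have h0 : (3 * (k : ZMod n) + 1) = 0 := by
    have h1 : ((3 * k + 1 : ℕ) : ZMod n) = 0 := by rw [← hn]; exact ZMod.natCast_self n
    push_cast at h1
    exact h1
  have habc : (a : ZMod n) + b = k := by rw [← hab]; push_cast; ring
  -- an end
  have hend : ∀ z, z ∈ A → z + 1 ∉ A → z = x + a - 1 ∨ z = y + b - 1 := by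
    intro z hz hz1
    rcases (hm z).1 hz with ⟨c, hc, rfl⟩ | ⟨c, hc, rfl⟩
    · left
      rcases Nat.lt_or_ge (c + 1) a with h1 | h1
      · exfalso
        apply hz1
        rw [hm]
        left
        exact ⟨c + 1, h1, by push_cast; ring⟩
      · have : a = c + 1 := by omega
        rw [this]; push_cast; ring
    · right
      rcases Nat.lt_or_ge (c + 1) b with h1 | h1
      · exfalso
        apply hz1
        rw [hm]
        right
        exact ⟨c + 1, h1, by push_cast; ring⟩
      · have : b = c + 1 := by omega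
        rw [this]; push_cast; ring
  have hfactE : ∀ e, e ∈ A → e + 1 ∉ A → ∃ u v, (u = x + a - 1 ∨ u = y + b - 1) ∧
      (v = x + a - 1 ∨ v = y + b - 1) ∧ e + u + v = -1 := by
    intro e he he1
    have h1 : -(e + 1) ∈ A + A := by
      by_contra h2
      exact he1 ((hcomp _).2 h2)
    obtain ⟨u, hu, v, hv, huv⟩ := Finset.mem_add.1 h1
    have h2 : -e ∉ A + A := (hcomp e).1 he
    have huv' : u + v = -(e + 1) := huv
    refine ⟨u, v, hend u hu ?_, hend v hv ?_, by linear_combination huv'⟩
    · intro h3
      apply h2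
      exact Finset.mem_add.2 ⟨u + 1, h3, v, hv, by linear_combination huv'⟩
    · intro h3
      apply h2
      exact Finset.mem_add.2 ⟨u, hu, v + 1, h3, by linear_combination huv'⟩
  have he0 : x + a - 1 ∈ A := by
    rw [hm]; left
    refine ⟨a - 1, by omega, ?_⟩
    rw [Nat.cast_sub ha]; push_cast; ring
  have he1 : y + b - 1 ∈ A := by
    rw [hm]; right
    refine ⟨b - 1, by omega, ?_⟩
    rw [Nat.cast_sub hb]; push_cast; ring
  -- the end equation
  have hE : x + 2 * y = 2 - a - 2 * b := by
    have himp : 2 * (x + a - 1) + (y + b - 1) ≠ -1 := by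
      intro h1
      have h2 : ((2 * a + b - 1 : ℕ) : ZMod n) = 0 := by
        rw [Nat.cast_sub (by omega)]
        push_cast
        linear_combination h1 - hxy
      exact cast_small (by omega) (by omega) h2
    obtain ⟨u, v, hu, hv, huv⟩ := hfactE _ he0 (by rw [sub_add_cancel]; exact hxa)
    obtain ⟨u', v', hu', hv', huv'⟩ := hfactE _ he1 (by rw [sub_add_cancel]; exact hyb)
    have hgoal : (x + a - 1) + 2 * (y + b - 1) = -1 → x + 2 * y = 2 - a - 2 * b := by
      intro h1; linear_combination h1
    rcases hu with rfl | rfl <;> rcases hv with rfl | rfl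
    · rcases hu' with rfl | rfl <;> rcases hv' with rfl | rfl
      · exact absurd (by linear_combination huv') himp
      · exact hgoal (by linear_combination huv')
      · exact hgoal (by linear_combination huv')
      · exfalso
        apply hee
        have h3 : 3 * (x + a) = 3 * (y + (b : ZMod n)) := by linear_combination huv - huv'
        exact three_unit hn h3
    · exact absurd (by linear_combination huv) himp
    · exact absurd (by linear_combination huv) himp
    · exact hgoal (by linear_combination huv)
  have h3x : 3 * x = k + b := by linear_combination 2 * hxy - hE + habc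
  have hyx : y = x + 1 - k - b := by linear_combination hE - hxy - habc
  have hk2 : (k : ZMod n) = 2 * t := by rw [hkt]; push_cast; ring
  have h0t : (6 * (t : ZMod n) + 1) = 0 := by linear_combination h0 - 3 * hk2
  -- the bounds
  have hab1 : a ≤ t + 1 := by
    by_contra hcon
    push Not at hcon
    have h1 : x + (t + 1 : ℕ) ∈ A := by
      rw [hm]; left; exact ⟨t + 1, by omega, rfl⟩
    have h2 : x + a - 1 ∉ A := by
      rw [hcomp, not_not]
      refine Finset.mem_add.2 ⟨_, h1, _, h1, ?_⟩
      push_cast
      linear_combination h3x + habc + h0t + 2 * hk2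
    exact h2 he0
  have hbb1 : b ≤ t + 1 := by
    by_contra hcon
    push Not at hcon
    have h1 : y + (b - (t + 2) : ℕ) ∈ A := by
      rw [hm]; right; exact ⟨b - (t + 2), by omega, rfl⟩
    have h2 : y ∉ A := by
      rw [hcomp, not_not]
      refine Finset.mem_add.2 ⟨_, h1, _, h1, ?_⟩
      rw [Nat.cast_sub hcon]
      push_cast
      linear_combination 3 * hyx + h3x - h0t - 2 * hk2
    apply h2
    rw [hm]; right
    exact ⟨0, by omega, by simp⟩
  -- one half
  set δ : ZMod n := 3 * t + 1 with hδ
  have h2δ : 2 * δ = 1 := by rw [hδ]; linear_combination h0t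
  have hδu : IsUnit δ := IsUnit.of_mul_eq_one 2 (by rw [mul_comm]; exact h2δ)
  have hA1 : ∀ z, z ∈ A ↔ (∃ c : ℕ, c < a ∧ z = x + (2 * c : ℕ) * δ) ∨
      ∃ c : ℕ, c < b ∧ z = x + (2 * t + 1 - 2 * c : ℕ) * δ := by
    intro z
    rw [hm]
    apply or_congr
    · apply exists_congr
      intro c
      apply and_congr_right
      intro _
      rw [show x + ((2 * c : ℕ) : ZMod n) * δ = x + c by
        push_cast; linear_combination (c : ZMod n) * h2δ]
    · constructor
      · rintro ⟨c, hc, rfl⟩
        refine ⟨b - 1 - c, by omega, ?_⟩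
        rw [Nat.cast_sub (by omega)]
        push_cast
        rw [Nat.cast_sub (by omega), Nat.cast_sub hb]
        push_cast
        linear_combination hyx - (t - b + 1 + (c : ZMod n)) * h2δ - hk2 - hδ - h0t
      · rintro ⟨c, hc, rfl⟩
        refine ⟨b - 1 - c, by omega, ?_⟩
        rw [Nat.cast_sub (by omega), Nat.cast_sub (by omega), Nat.cast_sub hb]
        push_cast
        linear_combination - hyx + (t - (c : ZMod n)) * h2δ + hδ + hk2 + h0t
  rcases Nat.lt_or_ge a t with hat | hat
  · -- `a = t - 1`, `b = t + 1`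
    right
    refine ⟨x, δ, hδu, fun z => ?_⟩
    have e1 : x + ((k : ZMod n) - 1) * δ = x + (2 * t + 1 - 2 * 1 : ℕ) * δ := by
      rw [Nat.cast_sub (by omega)]; push_cast; linear_combination δ * hk2
    have e2 : x + ((k : ZMod n) + 1) * δ = x + (2 * t + 1 - 2 * 0 : ℕ) * δ := by
      rw [Nat.cast_sub (by omega)]; push_cast; linear_combination δ * hk2
    rw [hA1, e1, e2]
    constructor
    · rintro (⟨c, hc, hz⟩ | ⟨c, hc, hz⟩)
      · left; exact ⟨2 * c, by omega, hz⟩
      · rcases Nat.lt_or_ge c 2 with h1 | h1
        · rcases Nat.eq_zero_or_pos c with h2 | h2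
          · right; right; rw [h2] at hz; exact hz
          · right; left
            have : c = 1 := by omega
            rw [this] at hz; exact hz
        · left; exact ⟨2 * t + 1 - 2 * c, by omega, hz⟩
    · rintro (⟨i, hi, hz⟩ | hz | hz)
      · rcases Nat.even_or_odd' i with ⟨c, rfl | rfl⟩
        · left; exact ⟨c, by omega, hz⟩
        · right
          refine ⟨t - c, by omega, ?_⟩
          rw [show 2 * t + 1 - 2 * (t - c) = 2 * c + 1 by omega]
          exact hz
      · right; exact ⟨1, by omega, hz⟩
      · right; exact ⟨0, by omega, hz⟩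
  · rcases Nat.lt_or_ge t a with hta | hta
    · -- `a = t + 1`, `b = t - 1`
      right
      refine ⟨x + (2 * t + 1 : ℕ) * δ, -δ, hδu.neg, fun z => ?_⟩
      have e0 : ∀ i : ℕ, i ≤ 2 * t + 1 →
          (x + ((2 * t + 1 : ℕ) : ZMod n) * δ) + (i : ZMod n) * -δ
            = x + (2 * t + 1 - i : ℕ) * δ := by
        intro i hi
        rw [Nat.cast_sub hi]; ring
      have e1 : (x + ((2 * t + 1 : ℕ) : ZMod n) * δ) + ((k : ZMod n) - 1) * -δ
          = x + (2 * 1 : ℕ) * δ := by
        push_cast; linear_combination - δ * hk2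
      have e2 : (x + ((2 * t + 1 : ℕ) : ZMod n) * δ) + ((k : ZMod n) + 1) * -δ
          = x + (2 * 0 : ℕ) * δ := by
        push_cast; linear_combination - δ * hk2
      rw [hA1, e1, e2]
      constructor
      · rintro (⟨c, hc, hz⟩ | ⟨c, hc, hz⟩)
        · rcases Nat.lt_or_ge c 2 with h1 | h1
          · rcases Nat.eq_zero_or_pos c with h2 | h2
            · right; right; rw [h2] at hz; exact hz
            · right; left
              have : c = 1 := by omega
              rw [this] at hz; exact hz
          · left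
            refine ⟨2 * t + 1 - 2 * c, by omega, ?_⟩
            rw [e0 _ (by omega), show 2 * t + 1 - (2 * t + 1 - 2 * c) = 2 * c by omega]
            exact hz
        · left
          refine ⟨2 * c, by omega, ?_⟩
          rw [e0 _ (by omega)]
          exact hz
      · rintro (⟨i, hi, hz⟩ | hz | hz)
        · rw [e0 _ (by omega)] at hz
          rcases Nat.even_or_odd' i with ⟨c, rfl | rfl⟩
          · right; exact ⟨c, by omega, hz⟩
          · left
            refine ⟨t - c, by omega, ?_⟩
            rw [show 2 * (t - c) = 2 * t + 1 - (2 * c + 1) by omega]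
            exact hz
        · left; exact ⟨1, by omega, hz⟩
        · left; exact ⟨0, by omega, hz⟩
    · -- `a = b = t`
      left
      refine ⟨x, δ, hδu, fun z => ?_⟩
      have e2 : x + ((k : ZMod n) + 1) * δ = x + (2 * t + 1 - 2 * 0 : ℕ) * δ := by
        rw [Nat.cast_sub (by omega)]; push_cast; linear_combination δ * hk2
      rw [hA1, e2]
      constructor
      · rintro (⟨c, hc, hz⟩ | ⟨c, hc, hz⟩)
        · rcases Nat.eq_zero_or_pos c with h2 | h2
          · left; rw [h2] at hz; simpa using hz
          · right; left; exact ⟨2 * c, by omega, by omega, hz⟩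
        · rcases Nat.eq_zero_or_pos c with h2 | h2
          · right; right; rw [h2] at hz; exact hz
          · right; left; exact ⟨2 * t + 1 - 2 * c, by omega, by omega, hz⟩
      · rintro (hz | ⟨i, hi, hi', hz⟩ | hz)
        · left; exact ⟨0, by omega, by simpa using hz⟩
        · rcases Nat.even_or_odd' i with ⟨c, rfl | rfl⟩
          · left; exact ⟨c, by omega, hz⟩
          · right
            refine ⟨t - c, by omega, ?_⟩
            rw [show 2 * t + 1 - 2 * (t - c) = 2 * c + 1 by omega]
            exact hz
        · right; exact ⟨0, by omega, hz⟩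

/-- (P7) two arcs, `A = G \ -2A` -/
theorem two_arcs (n k : ℕ) [NeZero n] (hn : n = 3 * k + 1) (hk : Even k) (hk4 : 4 ≤ k)
    {A : Finset (ZMod n)} (hA : A.card = k) (hcomp : ∀ y, y ∈ A ↔ -y ∉ A + A)
    {r : ZMod n} (hr : IsUnit r) (h2 : (A ∪ tr A r).card = k + 2) :
    Three₁ k A ∨ Three₂ k A ∨ Hole k A ∨ Prog k A := by
  obtain ⟨u, hu⟩ := hr.exists_left_inv
  obtain ⟨t, ht⟩ := hk
  have hmain : Three₁ k (sc u A) ∨ Three₂ k (sc u A) := by
    have hc := comp_sc hu hcomp
    have hcard := card_sc hu A
    have hpair := pair_sc hu A r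
    rw [hu] at hpair
    set B := sc u A with hB
    have hne : B ≠ Finset.univ := by
      intro h
      rw [h, Finset.card_univ, ZMod.card, hA] at hcard
      omega
    obtain ⟨s, a, hsinj, ha1, hasum, hm, hs, he, hd⟩ := Pool.Agent.Helper43.FF.arcs n 2 hne (by
      rw [hpair, h2, hcard, hA])
    have hmem : ∀ z, z ∈ B ↔ (∃ c : ℕ, c < a 0 ∧ z = s 0 + c) ∨
        ∃ c : ℕ, c < a 1 ∧ z = s 1 + c := by
      intro z; rw [hm, Fin.exists_fin_two]
    have hasum' : a 0 + a 1 = k := by
      rw [Fin.sum_univ_two] at hasum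
      rw [hasum, hcard, hA]
    have h10 : (1 : Fin 2) ≠ 0 := by decide
    have hee : s 0 + a 0 ≠ s 1 + a 1 := by
      intro h
      have h3 := hd 0 1 (a 0 - 1) (a 1 - 1) (by have := ha1 0; omega) (by have := ha1 1; omega) (by
        rw [Nat.cast_sub (ha1 0), Nat.cast_sub (ha1 1)]
        push_cast
        linear_combination h)
      exact h10 h3.1.symm
    have hstart : ∀ z, z ∈ B → z - 1 ∉ B → z = s 0 ∨ z = s 1 := by
      intro z hz hz1
      rcases (hmem z).1 hz with ⟨c, hc, rfl⟩ | ⟨c, hc, rfl⟩
      · left
        rcases Nat.eq_zero_or_pos c with h1 | h1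
        · rw [h1]; push_cast; ring
        · exfalso
          apply hz1
          rw [hmem]; left
          exact ⟨c - 1, by omega, by rw [Nat.cast_sub h1]; push_cast; ring⟩
      · right
        rcases Nat.eq_zero_or_pos c with h1 | h1
        · rw [h1]; push_cast; ring
        · exfalso
          apply hz1
          rw [hmem]; right
          exact ⟨c - 1, by omega, by rw [Nat.cast_sub h1]; push_cast; ring⟩
    have hsB : ∀ i, s i ∈ B := by
      intro i
      rw [hm]
      exact ⟨i, 0, ha1 i, by simp⟩
    have hfactS : ∀ i, ∃ x y, (x = s 0 ∨ x = s 1) ∧ (y = s 0 ∨ y = s 1) ∧ s i + x + y = 1 := by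
      intro i
      have h1 : -(s i - 1) ∈ B + B := by
        by_contra h3
        exact hs i ((hc _).2 h3)
      obtain ⟨x, hx, y, hy, hxy⟩ := Finset.mem_add.1 h1
      have h3 : -(s i) ∉ B + B := (hc _).1 (hsB i)
      have hxy' : x + y = -(s i - 1) := hxy
      refine ⟨x, y, hstart x hx ?_, hstart y hy ?_, by linear_combination hxy'⟩
      · intro h4
        apply h3
        exact Finset.mem_add.2 ⟨x - 1, h4, y, hy, by linear_combination hxy'⟩
      · intro h4
        apply h3
        exact Finset.mem_add.2 ⟨x, hx, y - 1, h4, by linear_combination hxy'⟩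
    have hcase : 2 * s 0 + s 1 = 1 ∨ 2 * s 1 + s 0 = 1 := by
      obtain ⟨x, y, hx, hy, hxy⟩ := hfactS 0
      obtain ⟨x', y', hx', hy', hxy'⟩ := hfactS 1
      rcases hx with rfl | rfl <;> rcases hy with rfl | rfl
      · rcases hx' with rfl | rfl <;> rcases hy' with rfl | rfl
        · left; linear_combination hxy'
        · right; linear_combination hxy'
        · right; linear_combination hxy'
        · exfalso
          have h3 : 3 * s 0 = 3 * s 1 := by linear_combination hxy - hxy'
          exact h10 (hsinj (three_unit hn h3)).symm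
      · left; linear_combination hxy
      · left; linear_combination hxy
      · right; linear_combination hxy
    rcases hcase with h | h
    · exact two_core n k t hn (by omega) (by omega) hc (ha1 0) (ha1 1) hasum' hmem (he 0) (he 1)
        hee h
    · exact two_core n k t hn (by omega) (by omega) hc (ha1 1) (ha1 0) (by omega)
        (fun z => by rw [hmem, or_comm]) (he 1) (he 0) hee.symm h
  rcases hmain with h | h
  · exact Or.inl (three₁_sc hu h)
  · exact Or.inr (Or.inl (three₂_sc hu h))

end Pool.Agent.Helper85.FF
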